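import Mathlib
import Pool.Agent.N251.GA.Leaves

/-!
# Project GA (helper251), part CUBES (helper559): `(3, 3)` implies abc
-/

set_option autoImplicit false

namespace Pool.Agent.N559.GA.Cubes

open Pool.Agent.N251.GA

theorem t : LeafCubes := by
  intro R _ D N hN h
  have := isDomain D
  have := charZero D
  obtain ⟨C₁, hC₁, hlow⟩ := hom_lower
    (fun p => (p.2 ^ 3 + 6 * p.1 * p.2 ^ 2 + 3 * p.1 ^ 2 * p.2 - p.1 ^ 3) ^ 3)
    (fun p => (p.2 ^ 3 - 3 * p.1 * p.2 ^ 2 - 6 * p.1 ^ 2 * p.2 - p.1 ^ 3) ^ 3)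
    (by fun_prop) (by fun_prop) 9 (by norm_num)
    (fun t p => by simp only [Prod.smul_fst, Prod.smul_snd, smul_eq_mul]; ring)
    (fun t p => by simp only [Prod.smul_fst, Prod.smul_snd, smul_eq_mul]; ring)
    (by
      rintro ⟨x, y⟩ h1 h2
      simp only at h1 h2
      have h3 : y ^ 3 + 6 * x * y ^ 2 + 3 * x ^ 2 * y - x ^ 3 = 0 :=
        pow_eq_zero_iff (by norm_num) |>.1 h1
      have h4 : y ^ 3 - 3 * x * y ^ 2 - 6 * x ^ 2 * y - x ^ 3 = 0 :=
        pow_eq_zero_iff (by norm_num) |>.1 h2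
      have h5 : x * y * (x + y) = 0 := by linear_combination (1 / 9) * h3 - (1 / 9) * h4
      rcases mul_eq_zero.1 h5 with h6 | h6
      · rcases mul_eq_zero.1 h6 with h7 | h7
        · have h8 : y ^ 3 = 0 := by
            linear_combination h3 - (6 * y ^ 2 + 3 * x * y - x ^ 2) * h7
          rw [h7, (pow_eq_zero_iff (by norm_num)).1 h8]; rfl
        · have h8 : x ^ 3 = 0 := by
            linear_combination -h3 + (y ^ 2 + 6 * x * y + 3 * x ^ 2) * h7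
          rw [h7, (pow_eq_zero_iff (by norm_num)).1 h8]; rfl
      · have h7 : y = -x := by linear_combination h6
        rw [h7] at h3
        have h8 : x ^ 3 = 0 := by linear_combination h3
        have h9 := (pow_eq_zero_iff (by norm_num)).1 h8
        rw [h7, h9]; simp)
  obtain ⟨C₂, hC₂, hup⟩ := hom_upper (fun p => p.1 ^ 2 + p.1 * p.2 + p.2 ^ 2) (by fun_prop) 2
    (fun t p => by simp only [Prod.smul_fst, Prod.smul_snd, smul_eq_mul]; ring)
  set K : ℝ := 1 + 2 ^ 9 * C₁ + C₂ with hK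
  refine near D (3 * N) (by omega) ?_
  refine transferTri D 9 2 K (by rw [hK]; nlinarith) (by norm_num) (by norm_num) ?_ h
  rintro ⟨a, b, c⟩ ht hdvd
  obtain ⟨hab, hsum, ha, hb, hc⟩ := ht
  simp only at hab hsum ha hb hc hdvd
  right
  have hcab : c = -(a + b) := by linear_combination hsum
  obtain ⟨s, hs⟩ := hdvd
  push_cast at hs
  set q : R := a ^ 2 + a * b + b ^ 2 with hq
  set X : R := b ^ 3 + 6 * a * b ^ 2 + 3 * a ^ 2 * b - a ^ 3 with hX
  set Y : R := b ^ 3 - 3 * a * b ^ 2 - 6 * a ^ 2 * b - a ^ 3 with hY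
  have hF : X ^ 3 - Y ^ 3 = 27 * (a * b * (a + b)) * q ^ 3 := by rw [hX, hY, hq]; ring
  have h3a : (3 : R) ∣ a := ⟨N * s, by rw [hs]; ring⟩
  have hs0 : a + b ≠ 0 := by
    intro h0
    rw [hcab, h0, neg_zero] at hc
    exact hc rfl
  have hca : IsCoprime (a + b) a := by
    have := hab.symm.add_mul_left_left 1
    rwa [mul_one, add_comm b a] at this
  -- coprimality
  have haX : IsCoprime a X := by
    have h1 : IsCoprime a (b ^ 3) := hab.pow_right
    have := h1.add_mul_left_right (6 * b ^ 2 + 3 * a * b - a ^ 2)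
    rwa [show b ^ 3 + a * (6 * b ^ 2 + 3 * a * b - a ^ 2) = X by rw [hX]; ring] at this
  have h3X : IsCoprime (3 : R) X := haX.of_isCoprime_of_dvd_left h3a
  have hbX : IsCoprime b X := by
    have h1 : IsCoprime b (-a ^ 3) := hab.symm.pow_right.neg_right
    have := h1.add_mul_left_right (b ^ 2 + 6 * a * b + 3 * a ^ 2)
    rwa [show -a ^ 3 + b * (b ^ 2 + 6 * a * b + 3 * a ^ 2) = X by rw [hX]; ring] at this
  have hcX : IsCoprime (a + b) X := by
    have h1 : IsCoprime (a + b) (a ^ 3) := hca.pow_right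
    have := h1.add_mul_left_right (b ^ 2 + 5 * a * b - 2 * a ^ 2)
    rwa [show a ^ 3 + (a + b) * (b ^ 2 + 5 * a * b - 2 * a ^ 2) = X by rw [hX]; ring] at this
  have hXY : IsCoprime X Y := by
    have h1 : IsCoprime (3 ^ 2 * (a * b * (a + b))) X :=
      h3X.pow_left.mul_left ((haX.mul_left hbX).mul_left hcX)
    have h2 := h1.symm.neg_right.add_mul_left_right 1
    rwa [show -(3 ^ 2 * (a * b * (a + b))) + X * 1 = Y by rw [hX, hY]; ring] at h2
  have hq0 : q ≠ 0 := by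
    intro h0
    have h1 : IsCoprime a (b ^ 2) := hab.pow_right
    have h2 := h1.add_mul_left_right (a + b)
    rw [show b ^ 2 + a * (a + b) = q by rw [hq]; ring, h0] at h2
    exact not_unit_of_dvd D (n := 3) (by norm_num) (by exact_mod_cast h3a)
      (isCoprime_zero_right.1 h2)
  have hF0 : X ^ 3 - Y ^ 3 ≠ 0 := by
    rw [hF]
    exact mul_ne_zero (mul_ne_zero (by norm_num) (mul_ne_zero (mul_ne_zero ha hb) hs0))
      (pow_ne_zero _ hq0)
  -- local sizes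
  have hloc : ∀ i, ht D (a, b, c) i ≤ 2 * ‖(D.σ i a, D.σ i b)‖ := by
    intro i
    rw [Prod.norm_def]
    simp only [ht]
    have h1 := le_max_left ‖D.σ i a‖ ‖D.σ i b‖
    have h3 := le_max_right ‖D.σ i a‖ ‖D.σ i b‖
    have h4 : ‖D.σ i c‖ ≤ ‖D.σ i a‖ + ‖D.σ i b‖ := by
      rw [hcab, map_neg, norm_neg, map_add]; exact norm_add_le _ _
    have h5 : 0 ≤ ‖D.σ i a‖ := norm_nonneg _
    refine max_le (max_le ?_ ?_) ?_ <;> linarith
  have hnp : ∀ i, ‖(D.σ i a, D.σ i b)‖ ≤ ht D (a, b, c) i := by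
    intro i
    rw [Prod.norm_def]
    exact max_le (ht_ge1 D (a, b, c) i) (ht_ge2 D (a, b, c) i)
  refine ⟨(X, Y), ⟨hXY, fun h0 => hF0 (sub_eq_zero.2 h0), ?_⟩, ?_, q, hq0, ?_, 4, ?_⟩
  · simp only
    rw [hF]
    exact ⟨81 * s * b * (a + b) * q ^ 3, by rw [hs]; ring⟩
  · intro i
    have h1 := hlow (D.σ i a, D.σ i b)
    simp only at h1
    have h3 : max ‖(D.σ i b ^ 3 + 6 * D.σ i a * D.σ i b ^ 2 + 3 * D.σ i a ^ 2 * D.σ i b -
        D.σ i a ^ 3) ^ 3‖ ‖(D.σ i b ^ 3 - 3 * D.σ i a * D.σ i b ^ 2 - 6 * D.σ i a ^ 2 * D.σ i b -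
        D.σ i a ^ 3) ^ 3‖ = max (‖D.σ i X‖ ^ 3) (‖D.σ i Y‖ ^ 3) := by
      simp only [hX, hY, map_add, map_sub, map_mul, map_pow, map_ofNat, norm_pow]
    rw [h3] at h1
    have h9 : 0 ≤ max (‖D.σ i X‖ ^ 3) (‖D.σ i Y‖ ^ 3) := le_max_of_le_left (by positivity)
    simp only
    calc ht D (a, b, c) i ^ 9 ≤ (2 * ‖(D.σ i a, D.σ i b)‖) ^ 9 :=
          pow_le_pow_left₀ (ht_nonneg D _ i) (hloc i) 9
      _ = 2 ^ 9 * ‖(D.σ i a, D.σ i b)‖ ^ 9 := mul_pow _ _ _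
      _ ≤ 2 ^ 9 * (C₁ * max (‖D.σ i X‖ ^ 3) (‖D.σ i Y‖ ^ 3)) :=
          mul_le_mul_of_nonneg_left h1 (by norm_num)
      _ = 2 ^ 9 * C₁ * max (‖D.σ i X‖ ^ 3) (‖D.σ i Y‖ ^ 3) := by ring
      _ ≤ _ := mul_le_mul_of_nonneg_right (by rw [hK]; linarith) h9
  · intro i
    have h1 := hup (D.σ i a, D.σ i b)
    have e1 : D.σ i q = D.σ i a ^ 2 + D.σ i a * D.σ i b + D.σ i b ^ 2 := by
      simp only [hq, map_add, map_mul, map_pow]
    rw [e1]
    calc _ ≤ C₂ * ‖(D.σ i a, D.σ i b)‖ ^ 2 := h1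
      _ ≤ C₂ * ht D (a, b, c) i ^ 2 := by
          apply mul_le_mul_of_nonneg_left _ hC₂.le
          exact pow_le_pow_left₀ (norm_nonneg _) (hnp i) 2
      _ ≤ _ := mul_le_mul_of_nonneg_right (by rw [hK]; nlinarith)
          (pow_nonneg (ht_nonneg D _ i) _)
  · simp only
    obtain ⟨a', ha'⟩ := h3a
    rw [hF, hcab]
    refine ⟨a' ^ 3 * b ^ 3 * (a + b) ^ 3 * q, ?_⟩
    have e : (a * b * -(a + b) * q) ^ 4 = a ^ 3 * (a * b ^ 4 * (a + b) ^ 4 * q ^ 4) := by ring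
    have e2 : a ^ 3 = 27 * a' ^ 3 := by rw [ha']; ring
    rw [e, e2]
    ring

end Pool.Agent.N559.GA.Cubes
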